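import Pool.Agent.H26.WeightTwo

set_option autoImplicit false

universe u

namespace Pool.Agent.H26.Variants.WeightTwoVariant

open Pool.Agent.H26.Kervaire

/-- In the wreath product `G ≀ (ℤ/2)` every equation `s = g s⁻¹ g'` with constant coefficients
has a solution. -/
lemma swap_solution (G : Type u) [Group G] (g g' : G) :
    ∃ s : ((Multiplicative (ZMod 2)) → G) ⋊[transAut G (Multiplicative (ZMod 2))]
      (Multiplicative (ZMod 2)),
      s = diag G (Multiplicative (ZMod 2)) g * s⁻¹ * diag G (Multiplicative (ZMod 2)) g' := by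
  let σ : Multiplicative (ZMod 2) := Multiplicative.ofAdd 1
  have hσ : σ * σ = 1 := by decide
  have hσ' : σ⁻¹ = σ := by decide
  have hne : σ ≠ 1 := by decide
  have hall : ∀ x : Multiplicative (ZMod 2), x = 1 ∨ x = σ := by decide
  let f : Multiplicative (ZMod 2) → G := fun x => if x = 1 then g else g'
  refine ⟨⟨f, σ⟩, ?_⟩
  apply SemidirectProduct.ext
  · funext x
    rw [SemidirectProduct.mul_left, SemidirectProduct.mul_left, SemidirectProduct.mul_right,
      SemidirectProduct.inv_left]
    show f x = g * (f ((x * 1) * σ⁻¹))⁻¹ * g'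
    rw [mul_one, hσ']
    rcases hall x with h | h
    · subst h
      simp [f, hne]
    · subst h
      rw [hσ]
      simp [f, hne]
  · rw [SemidirectProduct.mul_right, SemidirectProduct.mul_right, SemidirectProduct.inv_right]
    show σ = 1 * σ⁻¹ * 1
    rw [one_mul, mul_one, hσ']

/-- **Q1 for nonsingular systems of weight two.**  Let `G` be any group and let
`w_1, ..., w_n ∈ G * F_n` be a nonsingular system in which every `w_j` has the form
`t_k^{±1} a t_l^{±1} b` with `a, b ∈ G`.  If a product of conjugates, in the group `H`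
presented by the system over `G`, of the images of `g_1, ..., g_r ∈ G` equals `1`, then some
product of `G`-conjugates of `g_1, ..., g_r` equals `1`. -/
theorem result (G : Type u) [Group G] (n : ℕ)
    (w : Fin n → Monoid.Coprod G (FreeGroup (Fin n)))
    (hw : ∀ j, ∃ (k l : Fin n) (ε δ : ℤˣ) (a b : G),
      w j = (Monoid.Coprod.inr (FreeGroup.of k)) ^ (ε : ℤ) * Monoid.Coprod.inl a *
        (Monoid.Coprod.inr (FreeGroup.of l)) ^ (δ : ℤ) * Monoid.Coprod.inl b)
    (hdet : (Matrix.of (fun i j : Fin n => Multiplicative.toAdd
        (Monoid.Coprod.lift (1 : G →* Multiplicative ℤ)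
          (FreeGroup.lift (fun k : Fin n =>
            if k = i then Multiplicative.ofAdd (1 : ℤ) else 1)) (w j)))).det ≠ 0)
    (r : ℕ) (g : Fin r → G)
    (h : ∃ h : Fin r → (Monoid.Coprod G (FreeGroup (Fin n)) ⧸
              Subgroup.normalClosure (Set.range w)),
          (List.ofFn (fun i => h i *
              QuotientGroup.mk' (Subgroup.normalClosure (Set.range w))
                (Monoid.Coprod.inl (g i)) * (h i)⁻¹)).prod = 1) :
    ∃ x : Fin r → G, (List.ofFn (fun i => x i * g i * (x i)⁻¹)).prod = 1 := by
  classical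
  choose k l ε δ a b hw using hw
  let sys : Fin n → Eqn (Fin n) G := fun j => ⟨k j, l j, ε j, δ j, a j, b j⟩
  have hrow : ∀ i j, Multiplicative.toAdd (expHom G n i (w j)) = (sys j).row i := by
    intro i j
    rw [hw j]
    simp only [map_mul, map_zpow, expHom, Monoid.Coprod.lift_apply_inl,
      Monoid.Coprod.lift_apply_inr, FreeGroup.lift_apply_of, MonoidHom.one_apply, mul_one,
      toAdd_mul, toAdd_zpow, Eqn.row, sys]
    congr 1
    · split_ifs <;> simp
    · split_ifs <;> simp
  obtain ⟨T, hT⟩ := exists_solution_weight_two (diag G (Multiplicative (ZMod 2)))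
    (swap_solution G) n (Fin n) (Fintype.card_fin n) sys (by
      intro c hc
      apply Matrix.eq_zero_of_mulVec_eq_zero hdet
      funext i
      show _ = (0 : ℤ)
      rw [← hc i]
      simp only [Matrix.mulVec, dotProduct, Matrix.of_apply]
      refine Finset.sum_congr rfl (fun j _ => ?_)
      rw [← hrow i j, mul_comm])
  refine of_solution w (diag G (Multiplicative (ZMod 2))) diag_reflecting T ?_ r g h
  intro j
  rw [hw j]
  have := hT j
  simpa [Eqn.Holds, sys] using this

end Pool.Agent.H26.Variants.WeightTwoVariant
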